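import Mathlib

/-!
# Operators on `L¹` of a countable space are determined, in norm, on single points
-/

namespace Pool.Agent.K6.H84.ONL

open MeasureTheory Filter Topology
open scoped ENNReal

/-- additivity of the `L¹` norm on functions with disjoint supports -/
lemma norm_add_disj {X E : Type*} [MeasurableSpace X] [NormedAddCommGroup E] {ν : Measure X}
    {f g : X → E} (hf : MemLp f 1 ν) (hg : MemLp g 1 ν)
    (h : Disjoint (Function.support f) (Function.support g)) :
    ‖hf.toLp f + hg.toLp g‖ = ‖hf.toLp f‖ + ‖hg.toLp g‖ := by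
  rw [← MemLp.toLp_add hf hg, Lp.norm_toLp, Lp.norm_toLp, Lp.norm_toLp,
    ← ENNReal.toReal_add hf.2.ne hg.2.ne, eLpNorm_one_eq_lintegral_enorm,
    eLpNorm_one_eq_lintegral_enorm, eLpNorm_one_eq_lintegral_enorm,
    ← lintegral_add_left' hf.1.enorm]
  congr 1
  refine lintegral_congr fun x => ?_
  by_cases hx : f x = 0
  · simp [hx]
  · have hx2 : g x = 0 := by
      by_contra h3
      exact Set.disjoint_left.mp h (show x ∈ Function.support f from hx) h3
    simp [hx2]

variable {X E : Type*} [MeasurableSpace X] [MeasurableSingletonClass X]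
  [NormedAddCommGroup E] [NormedSpace ℝ E]

lemma fin_bound (ν : Measure X) (hfin : ∀ x, ν {x} ≠ ∞)
    (T : Lp E 1 ν →L[ℝ] Lp E 1 ν) (K : ℝ)
    (h : ∀ (x : X) (c : E),
      ‖T (indicatorConstLp 1 (measurableSet_singleton x) (hfin x) c)‖ ≤
        K * ‖indicatorConstLp 1 (measurableSet_singleton x) (hfin x) c‖)
    (c : E) (s : Finset X) :
    ∀ hs : ν (s : Set X) ≠ ∞,
      ‖T (indicatorConstLp 1 s.measurableSet hs c)‖ ≤
        K * ‖indicatorConstLp 1 s.measurableSet hs c‖ := by
  classical
  induction s using Finset.induction_on with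
  | empty =>
    intro hs
    have e : indicatorConstLp 1 (Finset.measurableSet (∅ : Finset X)) hs c = 0 := by
      rw [← norm_eq_zero, norm_indicatorConstLp one_ne_zero ENNReal.one_ne_top]
      simp
    rw [e]
    simp
  | insert a s ha ih =>
    intro hs
    have hs2 : ν (s : Set X) ≠ ∞ := by
      refine ne_top_of_le_ne_top hs (measure_mono ?_)
      simp
    have hd : Disjoint ({a} : Set X) (s : Set X) := by
      rw [Set.disjoint_singleton_left]
      exact_mod_cast ha
    have e : indicatorConstLp 1 (Finset.measurableSet (insert a s)) hs c =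
        indicatorConstLp 1 (measurableSet_singleton a) (hfin a) c +
          indicatorConstLp 1 s.measurableSet hs2 c := by
      rw [← indicatorConstLp_disjoint_union (measurableSet_singleton a) s.measurableSet (hfin a)
        hs2 hd c]
      congr 1
      rw [Finset.coe_insert, Set.insert_eq]
    have e2 : ‖indicatorConstLp 1 (Finset.measurableSet (insert a s)) hs c‖ =
        ‖indicatorConstLp 1 (measurableSet_singleton a) (hfin a) c‖ +
          ‖indicatorConstLp 1 s.measurableSet hs2 c‖ := by
      rw [norm_indicatorConstLp one_ne_zero ENNReal.one_ne_top,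
        norm_indicatorConstLp one_ne_zero ENNReal.one_ne_top,
        norm_indicatorConstLp one_ne_zero ENNReal.one_ne_top]
      have : ν.real ((insert a s : Finset X) : Set X) = ν.real {a} + ν.real (s : Set X) := by
        rw [Finset.coe_insert, Set.insert_eq,
          measureReal_union hd s.measurableSet (hfin a) hs2]
      rw [this]
      simp
      ring
    rw [e2, e, map_add]
    refine (norm_add_le _ _).trans ?_
    have h1 := h a c
    have h2 := ih hs2
    linarith

lemma op_bound [Countable X] (ν : Measure X) (hfin : ∀ x, ν {x} ≠ ∞)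
    (T : Lp E 1 ν →L[ℝ] Lp E 1 ν) (K : ℝ) (hK : 0 ≤ K)
    (h : ∀ (x : X) (c : E),
      ‖T (indicatorConstLp 1 (measurableSet_singleton x) (hfin x) c)‖ ≤
        K * ‖indicatorConstLp 1 (measurableSet_singleton x) (hfin x) c‖) : ‖T‖ ≤ K := by
  classical
  refine ContinuousLinearMap.opNorm_le_bound _ hK fun g => ?_
  refine Lp.induction (p := 1) ENNReal.one_ne_top
    (motive := fun g : Lp E 1 ν => ‖T g‖ ≤ K * ‖g‖) ?_ ?_ ?_ g
  · intro c s hs hμs
    change ‖T (indicatorConstLp 1 hs hμs.ne c)‖ ≤ K * ‖indicatorConstLp 1 hs hμs.ne c‖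
    obtain ⟨enc, henc⟩ := Countable.exists_injective_nat X
    have hfinset : ∀ n : ℕ, (s ∩ {x | enc x < n}).Finite := fun n => by
      have h1 : ({x | enc x < n} : Set X).Finite :=
        (Set.finite_lt_nat n).preimage henc.injOn
      exact h1.subset Set.inter_subset_right
    set F : ℕ → Finset X := fun n => (hfinset n).toFinset with hF
    have hFs : ∀ n, (F n : Set X) = s ∩ {x | enc x < n} := fun n => by
      rw [hF]
      simp
    have hFn : ∀ n, ν (F n : Set X) ≠ ∞ := fun n => by
      refine ne_top_of_le_ne_top hμs.ne (measure_mono ?_)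
      rw [hFs]
      exact Set.inter_subset_left
    have ht : Tendsto (fun n => indicatorConstLp 1 (F n).measurableSet (hFn n) c) atTop
        (𝓝 (indicatorConstLp 1 hs hμs.ne c)) := by
      refine tendsto_indicatorConstLp_set ENNReal.one_ne_top ?_
      have e : ∀ n, symmDiff (F n : Set X) s = s \ {x | enc x < n} := by
        intro n
        rw [hFs]
        ext x
        simp only [Set.mem_symmDiff, Set.mem_inter_iff, Set.mem_sdiff]
        tauto
      simp only [e]
      have h0 : (⋂ n : ℕ, s \ {x | enc x < n}) = ∅ := by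
        rw [Set.eq_empty_iff_forall_notMem]
        intro x hx
        have h1 := (Set.mem_iInter.mp hx (enc x + 1)).2
        apply h1
        change enc x < enc x + 1
        omega
      rw [← measure_empty (μ := ν), ← h0]
      refine tendsto_measure_iInter_atTop (fun n => ?_) ?_ ⟨0, ?_⟩
      · exact (hs.diff (Set.to_countable _).measurableSet).nullMeasurableSet
      · intro a b hab x hx
        exact ⟨hx.1, fun h3 => hx.2 (lt_of_lt_of_le h3 hab)⟩
      · exact ne_top_of_le_ne_top hμs.ne (measure_mono Set.sdiff_subset)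
    have h1 : Tendsto (fun n => ‖T (indicatorConstLp 1 (F n).measurableSet (hFn n) c)‖) atTop
        (𝓝 ‖T (indicatorConstLp 1 hs hμs.ne c)‖) :=
      ((T.continuous.tendsto _).comp ht).norm
    have h2 : Tendsto (fun n => K * ‖indicatorConstLp 1 (F n).measurableSet (hFn n) c‖) atTop
        (𝓝 (K * ‖indicatorConstLp 1 hs hμs.ne c‖)) := ht.norm.const_mul K
    exact le_of_tendsto_of_tendsto' h1 h2 fun n => fin_bound ν hfin T K h c (F n) (hFn n)
  · intro f g hf hg hd h1 h2
    rw [norm_add_disj hf hg hd, map_add]
    refine (norm_add_le _ _).trans ?_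
    linarith
  · exact isClosed_le (T.continuous.norm) (continuous_norm.const_mul K)

end Pool.Agent.K6.H84.ONL
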