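import Pool.Agent.R302.RoeD

/-!
# A box space does not have property A
-/

namespace Pool.Agent.K6.H84.ONL

open Pool.Agent.R302.Roe

lemma two_sets {W : Type*} [DecidableEq W] (P Q : Finset W) (ε : ℝ)
    (hpq : ((symmDiff P Q).card : ℝ) < ε * ((P ∩ Q).card : ℝ)) :
    ∑ w ∈ P ∪ Q, |(if w ∈ P then (1 : ℝ) / P.card else 0) -
      (if w ∈ Q then (1 : ℝ) / Q.card else 0)| ≤ 2 * ε := by
  classical
  set N : ℝ := ((P ∩ Q).card : ℝ) with hN
  have hε : 0 < ε * N := lt_of_le_of_lt (by positivity) hpq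
  have hN0 : 0 < N := by
    rcases (show (0:ℝ) ≤ N by positivity).eq_or_lt with h | h
    · rw [← h, mul_zero] at hε
      exact absurd hε (lt_irrefl _)
    · exact h
  have hNP : N ≤ P.card := by
    rw [hN]
    exact_mod_cast Finset.card_le_card Finset.inter_subset_left
  have hNQ : N ≤ Q.card := by
    rw [hN]
    exact_mod_cast Finset.card_le_card Finset.inter_subset_right
  have hP0 : (0 : ℝ) < P.card := lt_of_lt_of_le hN0 hNP
  have hQ0 : (0 : ℝ) < Q.card := lt_of_lt_of_le hN0 hNQ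
  -- split
  have e1 : P ∪ Q = (P ∩ Q) ∪ symmDiff P Q := by
    ext w
    simp only [Finset.mem_union, Finset.mem_inter, Finset.mem_symmDiff]
    tauto
  have e2 : Disjoint (P ∩ Q) (symmDiff P Q) := by
    rw [Finset.disjoint_left]
    intro w hw hw2
    simp only [Finset.mem_inter, Finset.mem_symmDiff] at hw hw2
    tauto
  rw [e1, Finset.sum_union e2]
  have hcP : (P.card : ℝ) = N + (P \ Q).card := by
    rw [hN]
    exact_mod_cast (Finset.card_inter_add_card_sdiff P Q).symm
  have hcQ : (Q.card : ℝ) = N + (Q \ P).card := by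
    rw [hN, Finset.inter_comm]
    exact_mod_cast (Finset.card_inter_add_card_sdiff Q P).symm
  have hsd : ((symmDiff P Q).card : ℝ) = (P \ Q).card + (Q \ P).card := by
    have : symmDiff P Q = (P \ Q) ∪ (Q \ P) := rfl
    rw [this, Finset.card_union_of_disjoint]
    · push_cast
      rfl
    · rw [Finset.disjoint_left]
      intro w hw hw2
      simp only [Finset.mem_sdiff] at hw hw2
      tauto
  have f1 : ∑ w ∈ P ∩ Q, |(if w ∈ P then (1 : ℝ) / P.card else 0) -
      (if w ∈ Q then (1 : ℝ) / Q.card else 0)| ≤ ε := by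
    have h1 : ∀ w ∈ P ∩ Q, |(if w ∈ P then (1 : ℝ) / P.card else 0) -
      (if w ∈ Q then (1 : ℝ) / Q.card else 0)| ≤ ε / N := by
      intro w hw
      rw [Finset.mem_inter] at hw
      rw [if_pos hw.1, if_pos hw.2, div_sub_div _ _ hP0.ne' hQ0.ne', abs_div,
        abs_of_pos (mul_pos hP0 hQ0), one_mul, mul_one, div_le_div_iff₀ (mul_pos hP0 hQ0) hN0]
      have h2 : |(Q.card : ℝ) - P.card| ≤ ε * N := by
        rw [abs_le]
        have : (0:ℝ) ≤ (P \ Q).card := by positivity
        have : (0:ℝ) ≤ (Q \ P).card := by positivity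
        constructor <;> linarith
      have h3 : N * N ≤ P.card * Q.card := mul_le_mul hNP hNQ hN0.le hP0.le
      have hε0 : 0 ≤ ε := by
        by_contra h4
        have := mul_neg_of_neg_of_pos (not_le.mp h4) hN0
        linarith
      calc |(Q.card : ℝ) - P.card| * N ≤ ε * N * N := mul_le_mul_of_nonneg_right h2 hN0.le
        _ = ε * (N * N) := by ring
        _ ≤ ε * (P.card * Q.card) := mul_le_mul_of_nonneg_left h3 hε0
    refine (Finset.sum_le_card_nsmul _ _ _ h1).trans (le_of_eq ?_)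
    rw [nsmul_eq_mul, ← hN]
    field_simp
  have f2 : ∑ w ∈ symmDiff P Q, |(if w ∈ P then (1 : ℝ) / P.card else 0) -
      (if w ∈ Q then (1 : ℝ) / Q.card else 0)| ≤ ε := by
    have h1 : ∀ w ∈ symmDiff P Q, |(if w ∈ P then (1 : ℝ) / P.card else 0) -
      (if w ∈ Q then (1 : ℝ) / Q.card else 0)| ≤ 1 / N := by
      intro w hw
      rw [Finset.mem_symmDiff] at hw
      rcases hw with ⟨h2, h3⟩ | ⟨h2, h3⟩
      · rw [if_pos h2, if_neg h3, sub_zero, abs_of_pos (by positivity)]
        exact one_div_le_one_div_of_le hN0 hNP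
      · rw [if_neg h3, if_pos h2, zero_sub, abs_neg, abs_of_pos (by positivity)]
        exact one_div_le_one_div_of_le hN0 hNQ
    refine (Finset.sum_le_card_nsmul _ _ _ h1).trans ?_
    rw [nsmul_eq_mul, mul_one_div, div_le_iff₀ hN0]
    exact hpq.le
  linarith

lemma not_propA : ¬ (∀ R : ℝ, 0 < R → ∀ ε : ℝ, 0 < ε →
        ∃ S : ℝ, ∃ A : PX → Set (PX × ℕ),
          (∀ x, (A x).Finite) ∧ (∀ x, (x, 0) ∈ A x) ∧
          (∀ x, ∀ w ∈ A x, dist w.1 x ≤ S) ∧
          ∀ x y, dist x y < R →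
            ((symmDiff (A x) (A y)).ncard : ℝ) < ε * ((A x ∩ A y).ncard : ℝ)) := by
  classical
  intro h
  obtain ⟨S, A, hfin, hself, hdist, hnear⟩ := h 2 (by norm_num) (1 / 40) (by norm_num)
  set k : ℕ := ⌈S⌉₊ with hk
  have hSk : S ≤ k := Nat.le_ceil S
  set m : ℕ := k + 2 with hm
  -- the finite sets in the block `(k + 1, m)`
  set pt : QQ m → PX := fun q => ⟨(k + 1, m), q⟩ with hpt
  have hptinj : Function.Injective pt := by
    intro a b hab
    have : (⟨(k + 1, m), a⟩ : PX) = ⟨(k + 1, m), b⟩ := hab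
    simpa using this
  set P : QQ m → Finset (PX × ℕ) := fun q => (hfin (pt q)).toFinset with hP
  have hPm : ∀ q w, w ∈ P q ↔ w ∈ A (pt q) := fun q w => by
    rw [hP]
    simp
  have hPpos : ∀ q, (0 : ℝ) < (P q).card := fun q => by
    have : 0 < (P q).card := Finset.card_pos.mpr ⟨(pt q, 0), (hPm q _).mpr (hself _)⟩
    exact_mod_cast this
  have hblk : ∀ q w, w ∈ P q → ∃ q', w.1 = pt q' ∧ len m (q⁻¹ * q') ≤ k := by
    intro q w hw
    have h1 := hdist (pt q) w ((hPm q w).mp hw)
    rw [dist_comm, dist_def] at h1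
    have h2 : dN (pt q) w.1 ≤ k := by exact_mod_cast h1.trans hSk
    have h3 : (pt q).p = w.1.p := same_block (lt_of_le_of_lt h2 (by
      change k < k + 1
      omega))
    obtain ⟨⟨p', q'⟩, j⟩ := w
    dsimp only at h3 h2
    change (k + 1, m) = p' at h3
    subst h3
    refine ⟨q', rfl, ?_⟩
    rw [← dN_same (k + 1, m) q q']
    exact h2
  -- the weights
  set G : QQ m → QQ m → ℝ := fun q q' =>
    ∑ w ∈ (P q).filter (fun w => w.1 = pt q'), (1 : ℝ) / (P q).card with hG
  have hG2 : ∀ q q' (U : Finset (PX × ℕ)), P q ⊆ U → G q q' =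
      ∑ w ∈ U.filter (fun w => w.1 = pt q'), (if w ∈ P q then (1 : ℝ) / (P q).card else 0) := by
    intro q q' U hU
    rw [hG]
    dsimp only
    rw [← Finset.sum_filter, Finset.filter_filter]
    refine Finset.sum_congr ?_ fun _ _ => rfl
    ext w
    simp only [Finset.mem_filter]
    constructor
    · rintro ⟨h1, h2⟩
      exact ⟨hU h1, h2, h1⟩
    · rintro ⟨h1, h2, h3⟩
      exact ⟨h3, h2⟩
  have hfib : ∀ (U : Finset (PX × ℕ)) (F : PX × ℕ → ℝ), (∀ w ∈ U, ∃ q', w.1 = pt q') →
      ∑ q', ∑ w ∈ U.filter (fun w => w.1 = pt q'), F w = ∑ w ∈ U, F w := by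
    intro U F hU
    simp only [Finset.sum_filter]
    rw [Finset.sum_comm]
    refine Finset.sum_congr rfl fun w hw => ?_
    obtain ⟨q0, hq0⟩ := hU w hw
    rw [Finset.sum_eq_single q0]
    · rw [if_pos hq0]
    · intro b _ hb
      rw [if_neg]
      intro h2
      apply hb
      exact hptinj (h2.symm.trans hq0)
    · intro h2
      exact absurd (Finset.mem_univ _) h2
  refine avg_false k m le_rfl G ?_ ?_ ?_ ?_
  · intro q q'
    exact Finset.sum_nonneg fun w _ => by positivity
  · intro q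
    rw [hG]
    dsimp only
    rw [hfib (P q) (fun _ => (1 : ℝ) / (P q).card) (fun w hw => ?_)]
    · rw [Finset.sum_const, nsmul_eq_mul, mul_one_div, div_self (hPpos q).ne', sub_self, abs_zero]
      norm_num
    · obtain ⟨q', h1, -⟩ := hblk q w hw
      exact ⟨q', h1⟩
  · intro q q1 hq
    have hd : dist (pt q1) (pt q) < 2 := by
      rw [dist_comm, dist_def, hpt]
      dsimp only
      rw [dN_same]
      have : ((len m (q⁻¹ * q1) : ℕ) : ℝ) ≤ 1 := by exact_mod_cast hq
      change ((len m (q⁻¹ * q1) : ℕ) : ℝ) < 2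
      linarith
    have hn := hnear (pt q1) (pt q) hd
    have e1 : A (pt q1) = (P q1 : Set (PX × ℕ)) := by
      ext w
      rw [Finset.mem_coe, hPm]
    have e2 : A (pt q) = (P q : Set (PX × ℕ)) := by
      ext w
      rw [Finset.mem_coe, hPm]
    rw [e1, e2, ← Finset.coe_symmDiff, ← Finset.coe_inter, Set.ncard_coe_finset,
      Set.ncard_coe_finset] at hn
    have h1 := two_sets (P q1) (P q) (1 / 40) hn
    have h2 : ∀ q', |G q1 q' - G q q'| ≤
        ∑ w ∈ (P q1 ∪ P q).filter (fun w => w.1 = pt q'),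
          |(if w ∈ P q1 then (1 : ℝ) / (P q1).card else 0) -
            (if w ∈ P q then (1 : ℝ) / (P q).card else 0)| := by
      intro q'
      rw [hG2 q1 q' (P q1 ∪ P q) Finset.subset_union_left,
        hG2 q q' (P q1 ∪ P q) Finset.subset_union_right, ← Finset.sum_sub_distrib]
      exact Finset.abs_sum_le_sum_abs _ _
    refine lt_of_le_of_lt (Finset.sum_le_sum fun q' _ => h2 q') ?_
    rw [hfib (P q1 ∪ P q) _ (fun w hw => ?_)]
    · refine lt_of_le_of_lt h1 (by norm_num)
    · rcases Finset.mem_union.mp hw with hw | hw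
      · obtain ⟨q', h1, -⟩ := hblk q1 w hw
        exact ⟨q', h1⟩
      · obtain ⟨q', h1, -⟩ := hblk q w hw
        exact ⟨q', h1⟩
  · intro q q' hne
    rw [hG] at hne
    dsimp only at hne
    obtain ⟨w, hw, -⟩ := Finset.exists_ne_zero_of_sum_ne_zero hne
    rw [Finset.mem_filter] at hw
    obtain ⟨q'', h1, h2⟩ := hblk q w hw.1
    have : q'' = q' := hptinj (h1.symm.trans hw.2)
    rw [← this]
    exact h2

end Pool.Agent.K6.H84.ONL
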